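import Mathlib
import Pool.Agent.R274.WMPMain

namespace Pool.Agent.Results.MP_479f73_an.DomainFinite

open Pool.Agent.R274.WMP
open scoped ENNReal

/-- A Banach space `E` over the real or complex field such that the single pair
`(E, bounded scalar sequences)` has the weak maximizing property is finite dimensional. -/
theorem result (𝕜 E : Type*) [RCLike 𝕜] [NormedAddCommGroup E] [NormedSpace 𝕜 E]
    [CompleteSpace E] (h : WeakMaximizing 𝕜 E (lp (fun _ : ℕ => 𝕜) ∞)) :
    FiniteDimensional 𝕜 E :=
  finite_of_wmp h

end Pool.Agent.Results.MP_479f73_an.DomainFinite
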